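import Pool.Agent.H.MP_ad013a_pr.h63r.Q10.T
import Pool.Agent.H.MP_ad013a_pr.h63w.VLoop

namespace Pool.Agent.ad013a.R10

theorem c0 : lp7 (fun s => chk (ent L0 s)) 0 = true := by decide +kernel
theorem p0 : PrL chk L0 := leafL c0

theorem c1 : lp7 (fun s => chk (ent L1 s)) 0 = true := by decide +kernel
theorem p1 : PrL chk L1 := leafL c1

end Pool.Agent.ad013a.R10
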